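import Pool.Agent.H31.GUF.Targets
import Pool.Agent.H3.DP.M2
import Pool.Agent.H52.DP.DC

/-!
# Row AP of the board `guf_modules`: pairs have no obstruction on progressions
-/

set_option autoImplicit false

open Finset Filter Topology

namespace Pool.Agent.H36.GUF

open Pool.Agent.H31.DP Pool.Agent.H31.GUF

open Classical in
/-- all initial segments and all residue classes, for a general function -/
theorem segs (S : ℕ → ℕ → ℕ → ℝ) (hS0 : ∀ q n₀, S q n₀ 0 = 0)
    (hPR : ∀ (q n₀ : ℕ) (ρ : ℝ), 0 < q → 0 < ρ → ∃ K : ℕ, ∀ x y : ℕ, 0 < x → K * x ≤ y →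
      ∑ N ∈ Finset.Icc x y, (1 / (N : ℝ)) * |S q n₀ N / N| ≤ ρ * Real.log ((y : ℝ) / x))
    (L J : ℕ) (η ρ : ℝ) (hJ : 0 < J) (hη : 0 < η) (hρ : 0 < ρ) :
    ∃ K : ℕ, ∀ x y : ℕ, 0 < x → K * x ≤ y →
      ∑ N ∈ (Finset.Icc x y).filter (fun N : ℕ => ∃ q : ℕ, 1 ≤ q ∧ q ≤ L ∧ ∃ n₀ : ℕ,
        n₀ < q ∧ ∃ i : ℕ, i ≤ J ∧ η * N < |S q n₀ (i * N / J)|),
        (1 / (N : ℝ)) ≤ ρ * Real.log ((y : ℝ) / x) := by
  have hJ0 : (0 : ℝ) < J := by exact_mod_cast hJ
  obtain ⟨ρ₁, hρ₁⟩ : ∃ ρ₁ : ℝ, ρ₁ = ρ * η / (2 * J * (L * L * J + 1)) := ⟨_, rfl⟩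
  have hρ₁0 : 0 < ρ₁ := by
    rw [hρ₁]
    positivity
  have hK : ∀ q n₀ : ℕ, ∃ K : ℕ, 0 < q → ∀ x y : ℕ, 0 < x → K * x ≤ y →
      ∑ N ∈ Finset.Icc x y, (1 / (N : ℝ)) * |S q n₀ N / N| ≤ ρ₁ * Real.log ((y : ℝ) / x) := by
    intro q n₀
    by_cases hq : 0 < q
    · obtain ⟨K, hK⟩ := hPR q n₀ ρ₁ hq hρ₁0
      exact ⟨K, fun _ => hK⟩
    · exact ⟨0, fun h => absurd h hq⟩
  choose K hK using hK
  obtain ⟨K₀, hK₀⟩ : ∃ K₀ : ℕ, ∀ q n₀, q ≤ L → n₀ < q → K q n₀ ≤ K₀ := by
    refine ⟨(Finset.range (L + 1) ×ˢ Finset.range (L + 1)).sup (fun p => K p.1 p.2),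
      fun q n₀ h1 h2 => ?_⟩
    refine Finset.le_sup (f := fun p : ℕ × ℕ => K p.1 p.2) (b := (q, n₀)) ?_
    rw [Finset.mem_product, Finset.mem_range, Finset.mem_range]
    exact ⟨by simp only; omega, by simp only; omega⟩
  refine ⟨K₀ + 2 * J, fun x y hx hxy => ?_⟩
  have hx0 : (0 : ℝ) < x := by exact_mod_cast hx
  have hy1 : K₀ * x ≤ y := le_trans (Nat.mul_le_mul_right _ (by omega)) hxy
  have hy2 : 2 * J * x ≤ y := le_trans (Nat.mul_le_mul_right _ (by omega)) hxy
  have hy0 : 0 < y := lt_of_lt_of_le (by positivity) hy2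
  have hy0' : (0 : ℝ) < y := by exact_mod_cast hy0
  have hyx : 2 * (J : ℝ) ≤ (y : ℝ) / x := by
    rw [le_div_iff₀ hx0]
    exact_mod_cast hy2
  have hlog : Real.log (2 * J) ≤ Real.log ((y : ℝ) / x) := Real.log_le_log (by positivity) hyx
  have hJ1 : (1 : ℝ) ≤ J := by exact_mod_cast hJ
  have hlog0 : 0 ≤ Real.log ((y : ℝ) / x) := Real.log_nonneg (by linarith)
  -- the lower end point
  have hx1 : 0 < max 1 (x / J) := lt_of_lt_of_le one_pos (le_max_left _ _)
  have hx1x : max 1 (x / J) ≤ x := max_le hx (Nat.div_le_self _ _)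
  have hx2 : (x : ℝ) ≤ 2 * J * (max 1 (x / J) : ℕ) := by
    have h1 : x ≤ 2 * J * max 1 (x / J) := by
      have h2 : x < J * (x / J + 1) := by
        have h3 := Nat.div_add_mod x J
        have h4 := Nat.mod_lt x hJ
        rw [Nat.mul_add, Nat.mul_one]
        omega
      have h3 : x / J + 1 ≤ 2 * max 1 (x / J) := by omega
      calc x ≤ J * (x / J + 1) := h2.le
        _ ≤ J * (2 * max 1 (x / J)) := Nat.mul_le_mul_left _ h3
        _ = 2 * J * max 1 (x / J) := by ring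
    exact_mod_cast h1
  have hx1' : (0 : ℝ) < (max 1 (x / J) : ℕ) := by exact_mod_cast hx1
  have hlog1 : Real.log ((y : ℝ) / (max 1 (x / J) : ℕ)) ≤ 2 * Real.log ((y : ℝ) / x) := by
    have h1 : (y : ℝ) / (max 1 (x / J) : ℕ) ≤ 2 * J * ((y : ℝ) / x) := by
      rw [div_le_iff₀ hx1']
      have h2 : (2 : ℝ) * J * (y / x) * (max 1 (x / J) : ℕ) =
          (y / x) * (2 * J * (max 1 (x / J) : ℕ)) := by ring
      rw [h2]
      calc (y : ℝ) = (y / x) * x := by field_simp
        _ ≤ _ := mul_le_mul_of_nonneg_left hx2 (by positivity)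
    calc Real.log ((y : ℝ) / (max 1 (x / J) : ℕ)) ≤ Real.log (2 * J * ((y : ℝ) / x)) :=
          Real.log_le_log (by positivity) h1
      _ = Real.log (2 * J) + Real.log ((y : ℝ) / x) :=
          Real.log_mul (by positivity) (by positivity)
      _ ≤ _ := by linarith
  obtain ⟨T, hT⟩ : ∃ T : Finset (ℕ × ℕ × ℕ),
      T = (Finset.Icc 1 L ×ˢ (Finset.range L ×ˢ Finset.Icc 1 J)) := ⟨_, rfl⟩
  have hone : ∀ t ∈ T, ∑ N ∈ (Finset.Icc x y).filter
      (fun N : ℕ => η * N < |S t.1 t.2.1 (t.2.2 * N / J)|), (1 / (N : ℝ)) ≤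
        (J / η) * (ρ₁ * (2 * Real.log ((y : ℝ) / x))) ∨ ¬ t.2.1 < t.1 := by
    intro t ht
    rw [hT, Finset.mem_product, Finset.mem_product, Finset.mem_Icc, Finset.mem_range,
      Finset.mem_Icc] at ht
    by_cases hlt : t.2.1 < t.1
    · left
      refine (Pool.Agent.H3.DP.one_seg (S t.1 t.2.1) J t.2.2 x y hJ ht.2.2.1 ht.2.2.2 hη hx
        (hS0 _ _)).trans ?_
      refine mul_le_mul_of_nonneg_left ?_ (by positivity)
      refine (hK t.1 t.2.1 ht.1.1 _ _ hx1 ?_).trans ?_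
      · exact le_trans (Nat.mul_le_mul (hK₀ t.1 t.2.1 ht.1.2 hlt) hx1x) hy1
      · exact mul_le_mul_of_nonneg_left hlog1 hρ₁0.le
    · exact Or.inr hlt
  have hTc : ((T.card : ℕ) : ℝ) = L * (L * J) := by
    rw [hT, Finset.card_product, Finset.card_product, Finset.card_range, Nat.card_Icc,
      Nat.card_Icc]
    push_cast
    simp
  have hc : 0 ≤ (J / η) * (ρ₁ * (2 * Real.log ((y : ℝ) / x))) := by positivity
  calc ∑ N ∈ (Finset.Icc x y).filter (fun N : ℕ => ∃ q : ℕ, 1 ≤ q ∧ q ≤ L ∧ ∃ n₀ : ℕ,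
        n₀ < q ∧ ∃ i : ℕ, i ≤ J ∧ η * N < |S q n₀ (i * N / J)|), (1 / (N : ℝ))
      ≤ ∑ N ∈ Finset.Icc x y, ∑ t ∈ T.filter (fun t => t.2.1 < t.1),
          (if η * N < |S t.1 t.2.1 (t.2.2 * N / J)| then (1 / (N : ℝ)) else 0) := by
        rw [Finset.sum_filter]
        refine Finset.sum_le_sum fun N hN => ?_
        have hN1 := Finset.mem_Icc.1 hN
        have hN0 : (0 : ℝ) < N := by exact_mod_cast lt_of_lt_of_le hx hN1.1
        have hnn : ∀ t ∈ T.filter (fun t => t.2.1 < t.1), (0 : ℝ) ≤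
            if η * N < |S t.1 t.2.1 (t.2.2 * N / J)| then (1 / (N : ℝ)) else 0 := by
          intro t _
          split_ifs
          · positivity
          · exact le_rfl
        split_ifs with hb
        · obtain ⟨q, h1, h2, n₀, h3, i, h4, h5⟩ := hb
          have hi : 1 ≤ i := by
            by_contra h6
            have h7 : i = 0 := by omega
            rw [h7, Nat.zero_mul, Nat.zero_div, hS0, abs_zero] at h5
            have := mul_pos hη hN0
            linarith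
          have ht : (q, n₀, i) ∈ T.filter (fun t => t.2.1 < t.1) := by
            rw [Finset.mem_filter, hT, Finset.mem_product, Finset.mem_product, Finset.mem_Icc,
              Finset.mem_range, Finset.mem_Icc]
            exact ⟨⟨⟨h1, h2⟩, lt_of_lt_of_le h3 h2, hi, h4⟩, h3⟩
          have h8 := Finset.single_le_sum hnn ht
          rw [if_pos h5] at h8
          exact h8
        · exact Finset.sum_nonneg hnn
    _ = ∑ t ∈ T.filter (fun t => t.2.1 < t.1), ∑ N ∈ (Finset.Icc x y).filter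
          (fun N : ℕ => η * N < |S t.1 t.2.1 (t.2.2 * N / J)|), (1 / (N : ℝ)) := by
        rw [Finset.sum_comm]
        exact Finset.sum_congr rfl fun t _ => (Finset.sum_filter _ _).symm
    _ ≤ ∑ t ∈ T.filter (fun t => t.2.1 < t.1),
          (J / η) * (ρ₁ * (2 * Real.log ((y : ℝ) / x))) := by
        refine Finset.sum_le_sum fun t ht => ?_
        rw [Finset.mem_filter] at ht
        rcases hone t ht.1 with h | h
        · exact h
        · exact absurd ht.2 h
    _ = ((T.filter (fun t => t.2.1 < t.1)).card : ℝ) *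
          ((J / η) * (ρ₁ * (2 * Real.log ((y : ℝ) / x)))) := by
        rw [Finset.sum_const, nsmul_eq_mul]
    _ ≤ (L * (L * J)) * ((J / η) * (ρ₁ * (2 * Real.log ((y : ℝ) / x)))) := by
        refine mul_le_mul_of_nonneg_right ?_ hc
        rw [← hTc]
        exact_mod_cast Finset.card_le_card (Finset.filter_subset _ _)
    _ ≤ (L * L * J + 1) * ((J / η) * (ρ₁ * (2 * Real.log ((y : ℝ) / x)))) := by
        refine mul_le_mul_of_nonneg_right ?_ hc
        linarith [mul_assoc (L : ℝ) L J]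
    _ = ρ * Real.log ((y : ℝ) / x) := by
        rw [hρ₁]
        field_simp


theorem pf_AP (hPL : F_PL) (hST : Pool.Agent.H31.DPD.P_ST) : F_AP := by
  classical
  intro l h L ρ hl hh hL hρ
  obtain ⟨S, hS⟩ : ∃ S : ℕ → ℕ → ℕ → ℝ, S = fun q n₀ m =>
      ∑ n ∈ (Finset.Icc 1 m).filter (fun n : ℕ => n ≡ n₀ [MOD q]), FF h 1 (n : ℤ) := ⟨_, rfl⟩
  have hL0 : (0 : ℝ) < L := by exact_mod_cast hL
  have hSd : ∀ q n₀ m M : ℕ, m ≤ M → |S q n₀ M| ≤ |S q n₀ m| + ((M : ℝ) - m) := by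
    intro q n₀ m M hmM
    have h1 : S q n₀ M = S q n₀ m +
        ∑ n ∈ (Finset.Ioc m M).filter (fun n : ℕ => n ≡ n₀ [MOD q]), FF h 1 (n : ℤ) := by
      rw [hS]
      simp only
      rw [← Finset.sum_union]
      · refine Finset.sum_congr ?_ fun _ _ => rfl
        rw [← Finset.filter_union]
        congr 1
        ext n
        simp only [Finset.mem_union, Finset.mem_Icc, Finset.mem_Ioc]
        omega
      · refine Finset.disjoint_filter_filter ?_
        rw [Finset.disjoint_left]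
        intro n h1 h2
        rw [Finset.mem_Icc] at h1
        rw [Finset.mem_Ioc] at h2
        omega
    rw [h1]
    refine (abs_add_le _ _).trans ?_
    gcongr
    refine (Finset.abs_sum_le_sum_abs _ _).trans ?_
    calc ∑ n ∈ (Finset.Ioc m M).filter (fun n : ℕ => n ≡ n₀ [MOD q]), |FF h 1 (n : ℤ)|
        ≤ ∑ n ∈ (Finset.Ioc m M).filter (fun n : ℕ => n ≡ n₀ [MOD q]), (1 : ℝ) :=
          Finset.sum_le_sum fun n _ => Pool.Agent.H52.DP.abs_FF_le h 1 _
      _ ≤ ∑ n ∈ Finset.Ioc m M, (1 : ℝ) :=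
          Finset.sum_le_sum_of_subset_of_nonneg (Finset.filter_subset _ _)
            fun _ _ _ => zero_le_one
      _ = (M : ℝ) - m := by
          rw [Finset.sum_const, Nat.card_Ioc, nsmul_eq_mul, mul_one, Nat.cast_sub hmM]
  obtain ⟨K, hK⟩ := segs S (fun q n₀ => by rw [hS]; simp) (fun q n₀ ρ hq hρ => by
    obtain ⟨K, hK⟩ := hPL l h q n₀ ρ hl hh hq hρ
    refine ⟨K, ?_⟩
    rw [hS]
    exact hK) L (4 * L) (1 / (2 * L)) (ρ / 2) (by omega) (by positivity) (by positivity)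
  obtain ⟨K₁, hK₁⟩ := exists_nat_ge (Real.exp (8 * L / ρ))
  refine ⟨K + K₁, fun x y hx hxy => ?_⟩
  have hx0 : (0 : ℝ) < x := by exact_mod_cast hx
  have hKx := hK x y hx (le_trans (Nat.mul_le_mul_right _ (by omega)) hxy)
  have hy1 : K₁ * x ≤ y := le_trans (Nat.mul_le_mul_right _ (by omega)) hxy
  have hlog : 8 * L / ρ ≤ Real.log ((y : ℝ) / x) := by
    have h1 : Real.exp (8 * L / ρ) ≤ (y : ℝ) / x := by
      rw [le_div_iff₀ hx0]
      refine (mul_le_mul_of_nonneg_right hK₁ hx0.le).trans ?_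
      exact_mod_cast hy1
    have h2 := Real.log_le_log (Real.exp_pos _) h1
    rwa [Real.log_exp] at h2
  -- small scales
  have hsmall : ∑ N ∈ (Finset.Icc x y).filter (fun N : ℕ => N < 4 * L), (1 / (N : ℝ)) ≤
      (ρ / 2) * Real.log ((y : ℝ) / x) := by
    have h1 : ∑ N ∈ (Finset.Icc x y).filter (fun N : ℕ => N < 4 * L), (1 / (N : ℝ)) ≤
        4 * (L : ℝ) := by
      calc ∑ N ∈ (Finset.Icc x y).filter (fun N : ℕ => N < 4 * L), (1 / (N : ℝ))
          ≤ ∑ N ∈ (Finset.Icc x y).filter (fun N : ℕ => N < 4 * L), (1 : ℝ) := by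
            refine Finset.sum_le_sum fun N hN => ?_
            rw [Finset.mem_filter, Finset.mem_Icc] at hN
            have : (1 : ℝ) ≤ N := by exact_mod_cast le_trans hx hN.1.1
            rw [div_le_one (by linarith)]
            exact this
        _ ≤ ∑ N ∈ Finset.range (4 * L), (1 : ℝ) := by
            refine Finset.sum_le_sum_of_subset_of_nonneg ?_ fun _ _ _ => zero_le_one
            intro N hN
            rw [Finset.mem_filter] at hN
            exact Finset.mem_range.2 hN.2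
        _ = 4 * (L : ℝ) := by
            rw [Finset.sum_const, Finset.card_range, nsmul_eq_mul, mul_one]
            push_cast
            ring
    refine h1.trans ?_
    calc 4 * (L : ℝ) = (ρ / 2) * (8 * L / ρ) := by
          field_simp
          ring
      _ ≤ _ := mul_le_mul_of_nonneg_left hlog (by positivity)
  -- large scales
  have hsub : (Finset.Icc x y).filter (fun N : ℕ => ¬ AS h L N) ⊆
      ((Finset.Icc x y).filter (fun N : ℕ => ∃ q : ℕ, 1 ≤ q ∧ q ≤ L ∧ ∃ n₀ : ℕ,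
        n₀ < q ∧ ∃ i : ℕ, i ≤ 4 * L ∧ 1 / (2 * (L : ℝ)) * N < |S q n₀ (i * N / (4 * L))|)) ∪
      (Finset.Icc x y).filter (fun N : ℕ => N < 4 * L) := by
    intro N hN
    rw [Finset.mem_filter] at hN
    rw [Finset.mem_union, Finset.mem_filter, Finset.mem_filter]
    by_cases hN4 : N < 4 * L
    · exact Or.inr ⟨hN.1, hN4⟩
    left
    refine ⟨hN.1, ?_⟩
    have hAS := hN.2
    unfold AS at hAS
    push Not at hAS
    obtain ⟨q, n₀, M, hq1, hqL, hMN, hbig⟩ := hAS
    have hNpos : 0 < N := lt_of_lt_of_le hx (Finset.mem_Icc.1 hN.1).1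
    have hN0 : (0 : ℝ) < N := by exact_mod_cast hNpos
    refine ⟨q, hq1, hqL, n₀ % q, Nat.mod_lt _ hq1, M * (4 * L) / N, ?_, ?_⟩
    · exact Nat.div_le_of_le_mul (Nat.mul_le_mul_right _ hMN)
    · have hbig' : (N : ℝ) / L < |S q (n₀ % q) M| := by
        have h1 : S q (n₀ % q) M = S q n₀ M := by
          rw [hS]
          simp only
          refine Finset.sum_congr ?_ fun _ _ => rfl
          refine Finset.filter_congr fun n _ => ?_
          unfold Nat.ModEq
          rw [Nat.mod_mod]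
        rw [h1, hS]
        exact hbig
      obtain ⟨i, hi⟩ : ∃ i, i = M * (4 * L) / N := ⟨_, rfl⟩
      rw [← hi]
      obtain ⟨m, hm⟩ : ∃ m, m = i * N / (4 * L) := ⟨_, rfl⟩
      rw [← hm]
      have hJ0 : 0 < 4 * L := by omega
      have a1 : i * N ≤ M * (4 * L) := by
        rw [hi]
        exact Nat.div_mul_le_self _ _
      have a2 : M * (4 * L) < (i + 1) * N := by
        rw [hi]
        exact (Nat.div_lt_iff_lt_mul hNpos).1 (Nat.lt_succ_self _)
      have a3 : m ≤ M := by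
        rw [hm]
        exact Nat.div_le_of_le_mul (by rw [mul_comm (4 * L)]; exact a1)
      have a4 : i * N < (m + 1) * (4 * L) := by
        rw [hm]
        exact (Nat.div_lt_iff_lt_mul hJ0).1 (Nat.lt_succ_self _)
      have a5 : (M : ℝ) * (4 * L) < (m + 1) * (4 * L) + N := by
        have h1 : M * (4 * L) < (m + 1) * (4 * L) + N := by
          calc M * (4 * L) < (i + 1) * N := a2
            _ = i * N + N := by ring
            _ < _ := Nat.add_lt_add_right a4 _
        exact_mod_cast h1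
      have a6 := hSd q (n₀ % q) m M a3
      have a7 : (M : ℝ) - m < 1 + N / (4 * L) := by
        have h1 : (M : ℝ) - m < ((4 * L) + N) / (4 * L) := by
          rw [lt_div_iff₀ (by positivity)]
          nlinarith
        calc (M : ℝ) - m < ((4 * L) + N) / (4 * L) := h1
          _ = 1 + N / (4 * L) := by
            field_simp
      have a8 : (1 : ℝ) ≤ N / (4 * L) := by
        rw [le_div_iff₀ (by positivity), one_mul]
        exact_mod_cast not_lt.1 hN4
      have a9 : (N : ℝ) / L = 4 * (N / (4 * L)) := by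
        field_simp
      have a10 : 1 / (2 * (L : ℝ)) * N = 2 * (N / (4 * L)) := by
        field_simp
        ring
      rw [a10]
      rw [a9] at hbig'
      linarith
  calc ∑ N ∈ (Finset.Icc x y).filter (fun N : ℕ => ¬ AS h L N), (1 / (N : ℝ))
      ≤ ∑ N ∈ ((Finset.Icc x y).filter (fun N : ℕ => ∃ q : ℕ, 1 ≤ q ∧ q ≤ L ∧ ∃ n₀ : ℕ,
        n₀ < q ∧ ∃ i : ℕ, i ≤ 4 * L ∧ 1 / (2 * (L : ℝ)) * N < |S q n₀ (i * N / (4 * L))|)) ∪
      (Finset.Icc x y).filter (fun N : ℕ => N < 4 * L), (1 / (N : ℝ)) :=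
        Finset.sum_le_sum_of_subset_of_nonneg hsub fun _ _ _ => by positivity
    _ ≤ ∑ N ∈ (Finset.Icc x y).filter (fun N : ℕ => ∃ q : ℕ, 1 ≤ q ∧ q ≤ L ∧ ∃ n₀ : ℕ,
          n₀ < q ∧ ∃ i : ℕ, i ≤ 4 * L ∧ 1 / (2 * (L : ℝ)) * N < |S q n₀ (i * N / (4 * L))|),
          (1 / (N : ℝ)) +
        ∑ N ∈ (Finset.Icc x y).filter (fun N : ℕ => N < 4 * L), (1 / (N : ℝ)) := by
        rw [← Finset.sum_union_inter]
        refine le_add_of_nonneg_right (Finset.sum_nonneg fun _ _ => ?_)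
        positivity
    _ ≤ (ρ / 2) * Real.log ((y : ℝ) / x) + (ρ / 2) * Real.log ((y : ℝ) / x) :=
        add_le_add hKx hsmall
    _ = ρ * Real.log ((y : ℝ) / x) := by ring

end Pool.Agent.H36.GUF
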